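import Mathlib
import Pool.Agent.Lib.MP_874039_nt.Eleven

/-!
# Binary partitions in eleven colours

The number of binary partitions of `n` in eleven colours is never divisible by `32`.
-/

set_option autoImplicit false

namespace Pool.Agent.Results.MP_874039_nt.ElevenColours

/-- The binary partitions of `n` in `m` colours: `c (i, j)` is the number of parts `2 ^ i` which
have the colour `j`. -/
def ColouredBinaryPartitions (m n : ℕ) : Set (ℕ × Fin m →₀ ℕ) :=
  {c | (c.sum fun p k => k * 2 ^ p.1) = n}

/-- The number `b_m(n)` of binary partitions of `n` in `m` colours. -/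
noncomputable def b (m n : ℕ) : ℕ := (ColouredBinaryPartitions m n).ncard

/-- **Theorem.** The number `11` is not of the form `2 ^ k - 1`, and for all `n` the set of binary
partitions of `n` in `11` colours is finite, its cardinality `b_11(n)` is positive, and the
exponent of `2` in `b_11(n)` is at most `4`. -/
theorem result :
    (¬ ∃ k : ℕ, 11 = 2 ^ k - 1) ∧
      ∀ n : ℕ, (ColouredBinaryPartitions 11 n).Finite ∧ 0 < b 11 n ∧
        padicValNat 2 (b 11 n) ≤ 4 := by
  refine ⟨?_, fun n => ?_⟩
  · rintro ⟨k, hk⟩
    rcases le_or_gt k 3 with h | h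
    · interval_cases k <;> omega
    · have h16 : (2 : ℕ) ^ 4 ≤ 2 ^ k := Nat.pow_le_pow_right (by norm_num) h
      norm_num at h16
      omega
  · have h : ¬ 32 ∣ b 11 n := Lib.MP_874039_nt.Eleven.not_dvd_ncard n
    have h0 : b 11 n ≠ 0 := by
      intro h1
      rw [h1] at h
      exact h (dvd_zero _)
    refine ⟨Set.finite_of_ncard_ne_zero h0, Nat.pos_of_ne_zero h0, ?_⟩
    by_contra hlt
    apply h
    have h5 : (2 : ℕ) ^ 5 ∣ b 11 n :=
      dvd_trans (Nat.pow_dvd_pow 2 (by omega)) pow_padicValNat_dvd
    exact h5

end Pool.Agent.Results.MP_874039_nt.ElevenColours
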